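import Pool.Agent.DQ2.Stmts

/-!
# DQ2, row DM2: the parametrisation for `d = 2`
-/

set_option autoImplicit false

open MvPolynomial

namespace Pool.Agent.DQ2.H81

open Pool.Agent.DQ2

/-- The last point on a line through a point of a quadric lies on the quadric. -/
theorem sec_on (tay : TAY) {R : Type} [CommRing R] {N : ℕ} (F : MvPolynomial (Fin N) R)
    (hF : F.IsHomogeneous 2) (p v : Fin N → R) (hp : eval p F = 0) : eval (sec F p v) F = 0 := by
  obtain ⟨-, h2, -⟩ := tay R N F
  have h := h2 hF p v (eval v F) (-lf F v p)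
  have e1 : sec F p v = fun j => eval v F * p j + -lf F v p * v j := by
    funext j
    unfold sec
    ring
  rw [e1, h.2.2.2, hp, h.1]
  ring

theorem dm2 (nat : NAT) (tay : TAY) (hom : HOM) (lfd : LFD) (crt : CRT) (irr : IRR) (do2 : DO2) :
    DM2 := by
  intro n k hn hk
  obtain ⟨⟨L, iF, iA, s, hfd, hrk, hs⟩, hev⟩ := lfd n 2 k (by norm_num) hk
  have hFh : (LDP.FK n 2).IsHomogeneous 2 := (hom n 2).1.map _
  have hpL : eval (pt (n + 2) (s ^ k)) (map (algebraMap (LDP.KK n 2) L) (LDP.FK n 2)) = 0 := by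
    rw [eval_map, ← aeval_def, hev L s, hs]
  refine ⟨L, iF, iA, sec (map (algebraMap (LDP.KK n 2) (MvPolynomial (Fin (n + 2)) L)) (LDP.FK n 2))
    (fun j => C (pt (n + 2) (s ^ k) j)) (fun j => X j), hfd, hrk, ?_, ?_⟩
  · rw [aeval_def, ← eval_map]
    refine sec_on tay _ (hFh.map _) _ _ ?_
    have hal : algebraMap (LDP.KK n 2) (MvPolynomial (Fin (n + 2)) L) =
        (C : L →+* MvPolynomial (Fin (n + 2)) L).comp (algebraMap (LDP.KK n 2) L) := rfl
    rw [hal, ← map_map, eval_map]
    have h1 : eval₂ (C : L →+* MvPolynomial (Fin (n + 2)) L)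
        (fun j => C (pt (n + 2) (s ^ k) j)) (map (algebraMap (LDP.KK n 2) L) (LDP.FK n 2)) =
        C (eval (pt (n + 2) (s ^ k)) (map (algebraMap (LDP.KK n 2) L) (LDP.FK n 2))) := by
      have := eval₂_comp_left (C : L →+* MvPolynomial (Fin (n + 2)) L) (RingHom.id L)
        (pt (n + 2) (s ^ k)) (map (algebraMap (LDP.KK n 2) L) (LDP.FK n 2))
      rw [RingHom.comp_id] at this
      exact this.symm
    rw [h1, hpL, map_zero]
  · intro σ g y hy hg
    have hsσ : Polynomial.aeval (σ s) (fK n 2 k) = 0 := by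
      rw [Polynomial.aeval_algHom_apply, hs, map_zero]
    have hlf := (crt n k hn hk).1 (AlgebraicClosure (LDP.KK n 2)) (σ s) hsσ
    have hyF : eval y (map (algebraMap (LDP.KK n 2) (AlgebraicClosure (LDP.KK n 2)))
        (LDP.FK n 2)) = 0 := by
      rw [eval_map, ← aeval_def, hy]
    obtain ⟨v, hv⟩ := do2 (AlgebraicClosure (LDP.KK n 2)) (n + 2)
      (map (algebraMap (LDP.KK n 2) (AlgebraicClosure (LDP.KK n 2))) (LDP.FK n 2)) g
      (pt (n + 2) ((σ s) ^ k)) y (hFh.map _) (irr n 2 hn (Or.inl rfl)) hlf hyF hg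
    refine ⟨v, ?_⟩
    let φ : MvPolynomial (Fin (n + 2)) L →+* AlgebraicClosure (LDP.KK n 2) :=
      (eval v).comp (map (σ : L →+* AlgebraicClosure (LDP.KK n 2)))
    have hφC : ∀ c : L, φ (C c) = σ c := by
      intro c
      change eval v (map (σ : L →+* AlgebraicClosure (LDP.KK n 2)) (C c)) = σ c
      rw [map_C, eval_C]
      rfl
    have hφX : ∀ j, φ (X j) = v j := by
      intro j
      change eval v (map (σ : L →+* AlgebraicClosure (LDP.KK n 2)) (X j)) = v j
      rw [map_X, eval_X]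
    have hφK : φ.comp (algebraMap (LDP.KK n 2) (MvPolynomial (Fin (n + 2)) L)) =
        algebraMap (LDP.KK n 2) (AlgebraicClosure (LDP.KK n 2)) := by
      ext c
      · change φ (C (algebraMap (LDP.KK n 2) L _)) = _
        rw [hφC, AlgHom.commutes]
    have hpt : (fun j => φ (C (pt (n + 2) (s ^ k) j))) = pt (n + 2) ((σ s) ^ k) := by
      funext j
      rw [hφC]
      unfold pt
      split_ifs
      · rw [map_pow]
      · rw [map_one]
      · rw [map_zero]
    have key : (fun a => eval v (map (σ : L →+* AlgebraicClosure (LDP.KK n 2))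
        (sec (map (algebraMap (LDP.KK n 2) (MvPolynomial (Fin (n + 2)) L)) (LDP.FK n 2))
          (fun j => C (pt (n + 2) (s ^ k) j)) (fun j => X j) a))) =
        sec (map (algebraMap (LDP.KK n 2) (AlgebraicClosure (LDP.KK n 2))) (LDP.FK n 2))
          (pt (n + 2) ((σ s) ^ k)) v := by
      funext a
      have h := (nat (MvPolynomial (Fin (n + 2)) L) (AlgebraicClosure (LDP.KK n 2)) φ (n + 2)
        (map (algebraMap (LDP.KK n 2) (MvPolynomial (Fin (n + 2)) L)) (LDP.FK n 2))).2.1
        (fun j => C (pt (n + 2) (s ^ k) j)) (fun j => X j) a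
      rw [map_map, hφK, hpt] at h
      have hX : (fun j => φ (X j)) = v := funext hφX
      rw [hX] at h
      exact h
    rw [key]
    exact hv

end Pool.Agent.DQ2.H81
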